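import Pool.Agent.Helper26.DA.Goals

/-!
# Project DA (MP_05c055_al), packet HEX: the homotopy of a syzygy.
-/

set_option autoImplicit false

namespace Pool.Agent.Helper32.DA

open IsLocalRing
open Pool.Agent.Helper26.DA

universe u v

section
variable {A : Type u} [CommRing A] {F : FC A}

theorem hty_symm {f g : Fam F} (h : Hty F f g) : Hty F g f := by
  obtain ⟨s, h0, h1⟩ := h
  refine ⟨fun i => -s i, fun z => ?_, fun i z => ?_⟩
  · rw [LinearMap.neg_apply, map_neg, ← h0, neg_sub]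
  · rw [LinearMap.neg_apply, LinearMap.neg_apply, map_neg, ← neg_add, ← h1, neg_sub]

theorem hty_trans {f g k : Fam F} (h : Hty F f g) (h' : Hty F g k) : Hty F f k := by
  obtain ⟨s, h0, h1⟩ := h
  obtain ⟨s', h0', h1'⟩ := h'
  refine ⟨fun i => s i + s' i, fun z => ?_, fun i z => ?_⟩
  · rw [LinearMap.add_apply, map_add, ← h0, ← h0', sub_add_sub_cancel]
  · rw [LinearMap.add_apply, LinearMap.add_apply, map_add, add_add_add_comm, ← h1, ← h1',
      sub_add_sub_cancel]

theorem hty_add {f g f' g' : Fam F} (h : Hty F f g) (h' : Hty F f' g') :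
    Hty F (f + f') (g + g') := by
  obtain ⟨s, h0, h1⟩ := h
  obtain ⟨s', h0', h1'⟩ := h'
  refine ⟨fun i => s i + s' i, fun z => ?_, fun i z => ?_⟩
  · rw [LinearMap.add_apply, map_add, ← h0, ← h0']
    show (f 0 z + f' 0 z) - (g 0 z + g' 0 z) = _
    abel
  · rw [LinearMap.add_apply, LinearMap.add_apply, map_add, add_add_add_comm, ← h1, ← h1']
    show (f (i + 1) z + f' (i + 1) z) - (g (i + 1) z + g' (i + 1) z) = _
    abel

theorem hty_mul {p f g : Fam F} (hp : IsCh F p) (h : Hty F f g) : Hty F (p * f) (p * g) := by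
  obtain ⟨s, h0, h1⟩ := h
  refine ⟨fun i => (p (i + 1)) ∘ₗ (s i), fun z => ?_, fun i z => ?_⟩
  · show p 0 (f 0 z) - p 0 (g 0 z) = F.d 0 (p (0 + 1) (s 0 z))
    rw [hp, ← map_sub, h0]
  · show p (i + 1) (f (i + 1) z) - p (i + 1) (g (i + 1) z) =
      F.d (i + 1) (p (i + 1 + 1) (s (i + 1) z)) + p (i + 1) (s i (F.d i z))
    rw [hp, ← map_add, ← map_sub, h1]

variable {B : Type v} [CommRing B] [Algebra A B]

theorem hty_zero (act : DAct A B F) : Hty F (act.ρ 0) 0 := by
  have := act.alg 0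
  rwa [map_zero, zero_smul] at this

theorem hty_sum (act : DAct A B F) {ι : Type} (S : Finset ι) (b : ι → B) (f : ι → Fam F)
    (h : ∀ l, Hty F (act.ρ (b l)) (f l)) : Hty F (act.ρ (∑ l ∈ S, b l)) (∑ l ∈ S, f l) := by
  classical
  induction S using Finset.induction_on with
  | empty => simpa using hty_zero act
  | insert l S hl ih =>
    rw [Finset.sum_insert hl, Finset.sum_insert hl]
    exact hty_trans (act.add _ _) (hty_add (h l) ih)

end

theorem gHEX : G_HEX.{u, v} := by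
  intro hBAS hNUL A _ _ B _ _ F act e a ha M q c hc
  obtain ⟨b1, b2, b3, b4, b5, b6, b7⟩ := hBAS A F e a ha
  have ham : ∀ l, a l ∈ maximalIdeal A := fun l => ha.1 ▸ Ideal.subset_span ⟨l, rfl⟩
  have hsm : ∀ (n : ℕ) (l : Fin e) (v : Fin n → A), a l • v ∈ mS A n := by
    intro n l v j
    exact Ideal.mul_mem_right _ _ (ham l)
  have hlin : ∀ (n m : ℕ) (T : (Fin n → A) →ₗ[A] (Fin m → A)) (z : Fin n → A), z ∈ mS A n →
      T z ∈ mS A m := by
    intro n m T z hz
    obtain ⟨y, rfl⟩ := b1 n z hz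
    rw [map_sum]
    refine Submodule.sum_mem _ fun l _ => ?_
    rw [map_smul]
    exact hsm m l _
  have hgood : ∀ t ∈ q * M.J, ∃ τ : Fam F, Hty F (act.ρ t) τ ∧ (∀ i z, τ i z ∈ mS A (F.r i)) ∧
      ∀ i (z : Zc F i), ∃ G : Fin e → Zc F i, τ i z = ∑ l, a l • (G l : Fin (F.r i) → A) ∧
        ∀ l, M.π i (G l) ∈ q • (⊤ : Submodule B (M.V i)) := by
    intro t ht
    refine Submodule.mul_induction_on ht (fun x hx y hy => ?_) (fun x y hx hy => ?_)
    · have hy' : ∀ i (v : M.V i), y • v = 0 := by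
        intro i v
        have h1 := (Submodule.mem_iInf _).mp hy i
        exact Module.mem_annihilator.mp h1 v
      obtain ⟨g, hg1, hg2, hg3⟩ := hNUL A F (act.ρ y) (act.ch y) (by
        intro i z hz
        have h1 := M.smul i y ⟨z, hz⟩ ⟨act.ρ y i z, b4 _ (act.ch y) i z hz⟩ rfl
        rw [hy'] at h1
        exact (M.ker i _).mp h1.symm)
      refine ⟨act.ρ x * g, hty_trans (act.mul x y) (hty_mul (act.ch x) hg2),
        fun i z => hlin _ _ (act.ρ x i) _ (hg3 i z), fun i z => ?_⟩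
      obtain ⟨w, hw⟩ := b1 _ _ (hg3 i z)
      have hwZ : ∀ l, w l ∈ Zc F i := by
        intro l
        cases i with
        | zero => trivial
        | succ i =>
          have hz : F.d i (z : Fin (F.r (i + 1)) → A) ∈ mS A (F.r i) := z.2
          obtain ⟨y', hy'⟩ := b1 _ _ hz
          have e1 : ∑ l, a l • (F.d i (w l) - g i (y' l)) = 0 := by
            have h1 : F.d i (g (i + 1) z) = g i (F.d i z) := hg1 i z
            rw [hw, hy', map_sum, map_sum] at h1
            have h2 : ∑ l, a l • (F.d i (w l) - g i (y' l)) =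
                ∑ l, F.d i (a l • w l) - ∑ l, g i (a l • y' l) := by
              rw [← Finset.sum_sub_distrib]
              refine Finset.sum_congr rfl fun l _ => ?_
              rw [map_smul, map_smul, smul_sub]
            rw [h2, h1, sub_self]
          have e2 := b2 _ _ e1 l
          have e3 : F.d i (w l) = (F.d i (w l) - g i (y' l)) + g i (y' l) := by abel
          show F.d i (w l) ∈ mS A (F.r i)
          rw [e3]
          exact Submodule.add_mem _ e2 (hg3 _ _)
      refine ⟨fun l => ⟨act.ρ x i (w l), b4 _ (act.ch x) i _ (hwZ l)⟩, ?_, fun l => ?_⟩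
      · show act.ρ x i (g i z) = _
        rw [hw, map_sum]
        exact Finset.sum_congr rfl fun l _ => map_smul _ _ _
      · rw [← M.smul i x ⟨w l, hwZ l⟩ _ rfl]
        exact Submodule.smul_mem_smul hx trivial
    · obtain ⟨τ, t1, t2, t3⟩ := hx
      obtain ⟨τ', t1', t2', t3'⟩ := hy
      refine ⟨τ + τ', hty_trans (act.add _ _) (hty_add t1 t1'),
        fun i z => Submodule.add_mem _ (t2 i z) (t2' i z), fun i z => ?_⟩
      obtain ⟨G, G1, G2⟩ := t3 i z
      obtain ⟨G', G1', G2'⟩ := t3' i z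
      refine ⟨fun l => G l + G' l, ?_, fun l => ?_⟩
      · show τ i z + τ' i z = _
        rw [G1, G1', ← Finset.sum_add_distrib]
        exact Finset.sum_congr rfl fun l _ => (smul_add _ _ _).symm
      · rw [map_add]
        exact Submodule.add_mem _ (G2 l) (G2' l)
  obtain ⟨τ, t1, t2, t3⟩ := hgood _ hc
  have hs : Hty F (∑ l, a l • act.ρ (c l)) τ := by
    refine hty_trans (hty_symm (hty_sum act Finset.univ (fun l => c l * algebraMap A B (a l))
      (fun l => a l • act.ρ (c l)) fun l => ?_)) t1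
    refine hty_trans (act.mul _ _) ?_
    have h1 := hty_mul (act.ch (c l)) (act.alg (a l))
    have h2 : act.ρ (c l) * (a l • (1 : Fam F)) = a l • act.ρ (c l) := by
      funext i
      refine LinearMap.ext fun z => ?_
      show act.ρ (c l) i (a l • z) = a l • act.ρ (c l) i z
      exact map_smul _ _ _
    rwa [h2] at h1
  obtain ⟨s, s0, s1⟩ := hs
  have hT : ∀ i z, (∑ l, a l • act.ρ (c l) : Fam F) i z = ∑ l, a l • act.ρ (c l) i z := by
    intro i z
    rw [Finset.sum_apply, LinearMap.sum_apply]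
    rfl
  have sZ : ∀ i (z : Fin (F.r i) → A), z ∈ Zc F i → s i z ∈ Zc F (i + 1) := by
    intro i z hz
    show F.d i (s i z) ∈ mS A (F.r i)
    cases i with
    | zero =>
      rw [← s0, hT]
      exact Submodule.sub_mem _ (Submodule.sum_mem _ fun l _ => hsm _ _ _) (t2 0 z)
    | succ i =>
      have e1 : F.d (i + 1) (s (i + 1) z) = (∑ l, a l • act.ρ (c l) : Fam F) (i + 1) z -
          τ (i + 1) z - s i (F.d i z) := by
        rw [s1]
        abel
      rw [e1, hT]
      exact Submodule.sub_mem _ (Submodule.sub_mem _ (Submodule.sum_mem _ fun l _ => hsm _ _ _)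
        (t2 _ z)) (hlin _ _ (s i) _ hz)
  have sB : ∀ i (z : Fin (F.r i) → A), z ∈ Bd F i → s i z ∈ Bd F (i + 1) := by
    intro i z hz
    obtain ⟨y, ⟨w, rfl⟩, μ, hμ, rfl⟩ := Submodule.mem_sup.mp hz
    rw [map_add]
    refine Submodule.add_mem _ ?_ (Submodule.mem_sup_right (hlin _ _ (s i) _ hμ))
    have e1 : s i (F.d i w) = ((∑ l, a l • act.ρ (c l) : Fam F) (i + 1) w -
        τ (i + 1) w) - F.d (i + 1) (s (i + 1) w) := by
      rw [s1]
      abel
    rw [e1, hT]
    exact Submodule.sub_mem _ (Submodule.mem_sup_right (Submodule.sub_mem _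
      (Submodule.sum_mem _ fun l _ => hsm _ _ _) (t2 _ w))) (Submodule.mem_sup_left ⟨_, rfl⟩)
  have hex : ∀ i, ∃ h : M.V i →+ M.V (i + 1), ∀ z : Zc F i,
      h (M.π i z) = M.π (i + 1) ⟨s i z, sZ i z z.2⟩ := by
    intro i
    let sr : Zc F i →+ Zc F (i + 1) :=
      { toFun := fun z => ⟨s i z, sZ i z z.2⟩
        map_zero' := Subtype.ext (map_zero (s i))
        map_add' := fun x y => Subtype.ext (map_add (s i) _ _) }
    have hk : (M.π i).ker ≤ ((M.π (i + 1)).comp sr).ker := by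
      intro z hz
      rw [AddMonoidHom.mem_ker] at hz ⊢
      exact (M.ker (i + 1) _).mpr (sB i z ((M.ker i z).mp hz))
    refine ⟨(M.π i).liftOfSurjective (M.surj i) ⟨(M.π (i + 1)).comp sr, hk⟩, fun z => ?_⟩
    exact AddMonoidHom.liftOfRightInverse_comp_apply _ _ _ _ _
  choose h hh using hex
  refine ⟨h, fun l v => ?_, fun i l v => ?_⟩
  · obtain ⟨z, rfl⟩ := M.surj 0 v
    obtain ⟨G, G1, G2⟩ := t3 0 z
    have hd : F.d 0 (s 0 z) = ∑ l, a l • (((⟨act.ρ (c l) 0 z, b4 _ (act.ch _) 0 z z.2⟩ : Zc F 0) -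
        G l : Zc F 0) : Fin (F.r 0) → A) := by
      rw [← s0, hT, G1, ← Finset.sum_sub_distrib]
      exact Finset.sum_congr rfl fun l _ => (smul_sub _ _ _).symm
    have hD := M.Dsp 0 ⟨s 0 z, sZ 0 z z.2⟩ _ hd l
    rw [hh, hD, map_sub, ← M.smul 0 (c l) z _ rfl]
    have e1 : (c l • M.π 0 z - M.π 0 (G l)) - c l • M.π 0 z = -M.π 0 (G l) := by abel
    rw [e1]
    exact Submodule.neg_mem _ (G2 l)
  · obtain ⟨z, rfl⟩ := M.surj (i + 1) v
    obtain ⟨G, G1, G2⟩ := t3 (i + 1) z
    obtain ⟨y, hy⟩ := b1 _ _ (show F.d i (z : Fin (F.r (i + 1)) → A) ∈ mS A (F.r i) from z.2)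
    have hyZ := b7 i z y hy
    have hDz := M.Dsp i z (fun l => ⟨y l, hyZ l⟩) hy l
    have hd : F.d (i + 1) (s (i + 1) z) = ∑ l, a l • (((⟨act.ρ (c l) (i + 1) z,
        b4 _ (act.ch _) (i + 1) z z.2⟩ : Zc F (i + 1)) - G l - (⟨s i (y l), sZ i _ (hyZ l)⟩ :
        Zc F (i + 1)) : Zc F (i + 1)) : Fin (F.r (i + 1)) → A) := by
      have e1 : F.d (i + 1) (s (i + 1) z) = (∑ l, a l • act.ρ (c l) : Fam F) (i + 1) z -
          τ (i + 1) z - s i (F.d i z) := by
        rw [s1]
        abel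
      rw [e1, hT, G1, hy, map_sum, ← Finset.sum_sub_distrib, ← Finset.sum_sub_distrib]
      refine Finset.sum_congr rfl fun l _ => ?_
      rw [map_smul, ← smul_sub, ← smul_sub]
      rfl
    have hD := M.Dsp (i + 1) ⟨s (i + 1) z, sZ (i + 1) z z.2⟩ _ hd l
    rw [hh, hD, hDz, hh, map_sub, map_sub, ← M.smul (i + 1) (c l) z _ rfl]
    have e1 : (c l • M.π (i + 1) z - M.π (i + 1) (G l) -
        M.π (i + 1) ⟨s i (y l), sZ i _ (hyZ l)⟩) + M.π (i + 1) ⟨s i (y l), sZ i _ (hyZ l)⟩ -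
        c l • M.π (i + 1) z = -M.π (i + 1) (G l) := by abel
    exact (congrArg (· ∈ q • (⊤ : Submodule B (M.V (i + 1)))) e1).mpr
      (Submodule.neg_mem _ (G2 l))

end Pool.Agent.Helper32.DA
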